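import Pool.Agent.Helper48.CXT.KD
import Pool.Agent.Helper48.CXT.D.Q10_1
import Pool.Agent.Helper48.CXT.D.Q10_2
import Pool.Agent.Helper48.CXT.D.Q10_3
import Pool.Agent.Helper48.CXT.D.Q10_4
import Pool.Agent.Helper48.CXT.D.Q10_5
import Pool.Agent.Helper48.CXT.D.Q10_6
import Pool.Agent.Helper48.CXT.D.Q10_7
import Pool.Agent.Helper48.CXT.D.Q10_8

/-!
Far cells of tail classes: data.
-/

set_option autoImplicit false
noncomputable section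
namespace Pool.Agent.Helper48.CXT.D

open Pool.Agent.Helper48.CXT.KT
open Pool.Agent.Helper48.CXT.KC
open Pool.Agent.Helper94.CXF.KN hiding Sg dnv dnO slT

def lq10_0_3 : List PT := [pq10_0_0, pq10_0_1]
theorem lq10_0_3_ok : cCT 0 0 0 (.lf lq10_0_3) bq10_0_3 = true := clf (by decide +kernel) (cl1
  pq10_0_0_ok (cl1 pq10_0_1_ok cl0))
def lq10_0_4 : List PT := [pq10_0_2, pq10_0_3]
theorem lq10_0_4_ok : cCT 0 0 0 (.lf lq10_0_4) bq10_0_4 = true := clf (by decide +kernel) (cl1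
  pq10_0_2_ok (cl1 pq10_0_3_ok cl0))
def tq10_0_2 : Tr (List PT) := .s1 (.lf lq10_0_3) (.lf lq10_0_4)
theorem tq10_0_2_ok : cCT 0 0 0 tq10_0_2 bq10_0_2 = true := cs1 (b := bq10_0_2) lq10_0_3_ok
  lq10_0_4_ok
def lq10_0_6 : List PT := [pq10_0_4, pq10_0_5]
theorem lq10_0_6_ok : cCT 0 0 0 (.lf lq10_0_6) bq10_0_6 = true := clf (by decide +kernel) (cl1
  pq10_0_4_ok (cl1 pq10_0_5_ok cl0))
def lq10_0_7 : List PT := [pq10_0_6, pq10_0_7]
theorem lq10_0_7_ok : cCT 0 0 0 (.lf lq10_0_7) bq10_0_7 = true := clf (by decide +kernel) (cl1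
  pq10_0_6_ok (cl1 pq10_0_7_ok cl0))
def tq10_0_5 : Tr (List PT) := .s1 (.lf lq10_0_6) (.lf lq10_0_7)
theorem tq10_0_5_ok : cCT 0 0 0 tq10_0_5 bq10_0_5 = true := cs1 (b := bq10_0_5) lq10_0_6_ok
  lq10_0_7_ok
def tq10_0_1 : Tr (List PT) := .s4 (tq10_0_2) (tq10_0_5)
theorem tq10_0_1_ok : cCT 0 0 0 tq10_0_1 bq10_0_1 = true := cs4 (b := bq10_0_1) tq10_0_2_ok
  tq10_0_5_ok
def lq10_0_10 : List PT := [pq10_0_8, pq10_0_9]
theorem lq10_0_10_ok : cCT 0 0 0 (.lf lq10_0_10) bq10_0_10 = true := clf (by decide +kernel) (cl1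
  pq10_0_8_ok (cl1 pq10_0_9_ok cl0))
def lq10_0_11 : List PT := [pq10_0_10, pq10_0_11]
theorem lq10_0_11_ok : cCT 0 0 0 (.lf lq10_0_11) bq10_0_11 = true := clf (by decide +kernel) (cl1
  pq10_0_10_ok (cl1 pq10_0_11_ok cl0))
def tq10_0_9 : Tr (List PT) := .s1 (.lf lq10_0_10) (.lf lq10_0_11)
theorem tq10_0_9_ok : cCT 0 0 0 tq10_0_9 bq10_0_9 = true := cs1 (b := bq10_0_9) lq10_0_10_ok
  lq10_0_11_ok
def lq10_0_13 : List PT := [pq10_0_12, pq10_0_13]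
theorem lq10_0_13_ok : cCT 0 0 0 (.lf lq10_0_13) bq10_0_13 = true := clf (by decide +kernel) (cl1
  pq10_0_12_ok (cl1 pq10_0_13_ok cl0))
def lq10_0_14 : List PT := [pq10_0_14, pq10_0_15]
theorem lq10_0_14_ok : cCT 0 0 0 (.lf lq10_0_14) bq10_0_14 = true := clf (by decide +kernel) (cl1
  pq10_0_14_ok (cl1 pq10_0_15_ok cl0))
def tq10_0_12 : Tr (List PT) := .s1 (.lf lq10_0_13) (.lf lq10_0_14)
theorem tq10_0_12_ok : cCT 0 0 0 tq10_0_12 bq10_0_12 = true := cs1 (b := bq10_0_12) lq10_0_13_ok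
  lq10_0_14_ok
def tq10_0_8 : Tr (List PT) := .s4 (tq10_0_9) (tq10_0_12)
theorem tq10_0_8_ok : cCT 0 0 0 tq10_0_8 bq10_0_8 = true := cs4 (b := bq10_0_8) tq10_0_9_ok
  tq10_0_12_ok
def tq10_0_0 : Tr (List PT) := .s4 (tq10_0_1) (tq10_0_8)
theorem tq10_0_0_ok : cCT 0 0 0 tq10_0_0 bq10_0_0 = true := cs4 (b := bq10_0_0) tq10_0_1_ok
  tq10_0_8_ok
/-- class (T, T, T), part 0 -/
theorem q10_0 : cCT 0 0 0 (tq10_0_0) ⟨nat_lit 535397221549391, nat_lit 562949953421312, nat_lit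
  535397221549391, nat_lit 562949953421312, nat_lit 535397221549391, nat_lit 562949953421312,
  nat_lit 588282701325271, nat_lit 675539944105574⟩ = true := tq10_0_0_ok

end Pool.Agent.Helper48.CXT.D
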