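import Pool.Agent.Helper48.CXT.KD

/-!
Far cells of tail classes: data.
-/

set_option autoImplicit false
noncomputable section
namespace Pool.Agent.Helper48.CXT.D

open Pool.Agent.Helper48.CXT.KT
open Pool.Agent.Helper48.CXT.KC
open Pool.Agent.Helper94.CXF.KN hiding Sg dnv dnO slT

def bq10_0_3 : Bx := ⟨nat_lit 535397221549391, nat_lit 549173587485351, nat_lit 535397221549391,
  nat_lit 562949953421312, nat_lit 535397221549391, nat_lit 562949953421312, nat_lit
  588282701325271, nat_lit 610097012020346⟩
def bq10_0_4 : Bx := ⟨nat_lit 549173587485351, nat_lit 562949953421312, nat_lit 535397221549391,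
  nat_lit 562949953421312, nat_lit 535397221549391, nat_lit 562949953421312, nat_lit
  588282701325271, nat_lit 610097012020346⟩
def bq10_0_2 : Bx := ⟨nat_lit 535397221549391, nat_lit 562949953421312, nat_lit 535397221549391,
  nat_lit 562949953421312, nat_lit 535397221549391, nat_lit 562949953421312, nat_lit
  588282701325271, nat_lit 610097012020346⟩
def bq10_0_6 : Bx := ⟨nat_lit 535397221549391, nat_lit 549173587485351, nat_lit 535397221549391,
  nat_lit 562949953421312, nat_lit 535397221549391, nat_lit 562949953421312, nat_lit
  610097012020346, nat_lit 631911322715422⟩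
def bq10_0_7 : Bx := ⟨nat_lit 549173587485351, nat_lit 562949953421312, nat_lit 535397221549391,
  nat_lit 562949953421312, nat_lit 535397221549391, nat_lit 562949953421312, nat_lit
  610097012020346, nat_lit 631911322715422⟩
def bq10_0_5 : Bx := ⟨nat_lit 535397221549391, nat_lit 562949953421312, nat_lit 535397221549391,
  nat_lit 562949953421312, nat_lit 535397221549391, nat_lit 562949953421312, nat_lit
  610097012020346, nat_lit 631911322715422⟩
def bq10_0_1 : Bx := ⟨nat_lit 535397221549391, nat_lit 562949953421312, nat_lit 535397221549391,
  nat_lit 562949953421312, nat_lit 535397221549391, nat_lit 562949953421312, nat_lit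
  588282701325271, nat_lit 631911322715422⟩
def bq10_0_10 : Bx := ⟨nat_lit 535397221549391, nat_lit 549173587485351, nat_lit 535397221549391,
  nat_lit 562949953421312, nat_lit 535397221549391, nat_lit 562949953421312, nat_lit
  631911322715422, nat_lit 653725633410498⟩
def bq10_0_11 : Bx := ⟨nat_lit 549173587485351, nat_lit 562949953421312, nat_lit 535397221549391,
  nat_lit 562949953421312, nat_lit 535397221549391, nat_lit 562949953421312, nat_lit
  631911322715422, nat_lit 653725633410498⟩
def bq10_0_9 : Bx := ⟨nat_lit 535397221549391, nat_lit 562949953421312, nat_lit 535397221549391,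
  nat_lit 562949953421312, nat_lit 535397221549391, nat_lit 562949953421312, nat_lit
  631911322715422, nat_lit 653725633410498⟩
def bq10_0_13 : Bx := ⟨nat_lit 535397221549391, nat_lit 549173587485351, nat_lit 535397221549391,
  nat_lit 562949953421312, nat_lit 535397221549391, nat_lit 562949953421312, nat_lit
  653725633410498, nat_lit 675539944105574⟩
def bq10_0_14 : Bx := ⟨nat_lit 549173587485351, nat_lit 562949953421312, nat_lit 535397221549391,
  nat_lit 562949953421312, nat_lit 535397221549391, nat_lit 562949953421312, nat_lit
  653725633410498, nat_lit 675539944105574⟩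
def bq10_0_12 : Bx := ⟨nat_lit 535397221549391, nat_lit 562949953421312, nat_lit 535397221549391,
  nat_lit 562949953421312, nat_lit 535397221549391, nat_lit 562949953421312, nat_lit
  653725633410498, nat_lit 675539944105574⟩
def bq10_0_8 : Bx := ⟨nat_lit 535397221549391, nat_lit 562949953421312, nat_lit 535397221549391,
  nat_lit 562949953421312, nat_lit 535397221549391, nat_lit 562949953421312, nat_lit
  631911322715422, nat_lit 675539944105574⟩
def bq10_0_0 : Bx := ⟨nat_lit 535397221549391, nat_lit 562949953421312, nat_lit 535397221549391,
  nat_lit 562949953421312, nat_lit 535397221549391, nat_lit 562949953421312, nat_lit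
  588282701325271, nat_lit 675539944105574⟩

end Pool.Agent.Helper48.CXT.D
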