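import Pool.Agent.Helper48.CXT.KD
import Pool.Agent.Helper48.CXT.D.W3_1
import Pool.Agent.Helper48.CXT.D.W3_2
import Pool.Agent.Helper48.CXT.D.W3_3
import Pool.Agent.Helper48.CXT.D.W3_4
import Pool.Agent.Helper48.CXT.D.W3_5
import Pool.Agent.Helper48.CXT.D.W3_6

/-!
Far cells of tail classes: data.
-/

set_option autoImplicit false
noncomputable section
namespace Pool.Agent.Helper48.CXT.D

open Pool.Agent.Helper48.CXT.KT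
open Pool.Agent.Helper48.CXT.KC
open Pool.Agent.Helper94.CXF.KN hiding Sg dnv dnO slT

def lw3_0_3 : List PT := [pw3_0_0, pw3_0_1]
theorem lw3_0_3_ok : cCT 0 0 3 (.lf lw3_0_3) bw3_0_3 = true := clf (by decide +kernel) (cl1
  pw3_0_0_ok (cl1 pw3_0_1_ok cl0))
def lw3_0_4 : List PT := [pw3_0_2, pw3_0_3]
theorem lw3_0_4_ok : cCT 0 0 3 (.lf lw3_0_4) bw3_0_4 = true := clf (by decide +kernel) (cl1
  pw3_0_2_ok (cl1 pw3_0_3_ok cl0))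
def tw3_0_2 : Tr (List PT) := .s2 (.lf lw3_0_3) (.lf lw3_0_4)
theorem tw3_0_2_ok : cCT 0 0 3 tw3_0_2 bw3_0_2 = true := cs2 (b := bw3_0_2) lw3_0_3_ok lw3_0_4_ok
def lw3_0_8 : List PT := [pw3_0_4, pw3_0_5]
theorem lw3_0_8_ok : cCT 0 0 3 (.lf lw3_0_8) bw3_0_8 = true := clf (by decide +kernel) (cl1
  pw3_0_4_ok (cl1 pw3_0_5_ok cl0))
def lw3_0_9 : List PT := [pw3_0_6, pw3_0_7]
theorem lw3_0_9_ok : cCT 0 0 3 (.lf lw3_0_9) bw3_0_9 = true := clf (by decide +kernel) (cl1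
  pw3_0_6_ok (cl1 pw3_0_7_ok cl0))
def tw3_0_7 : Tr (List PT) := .s1 (.lf lw3_0_8) (.lf lw3_0_9)
theorem tw3_0_7_ok : cCT 0 0 3 tw3_0_7 bw3_0_7 = true := cs1 (b := bw3_0_7) lw3_0_8_ok lw3_0_9_ok
def lw3_0_11 : List PT := [pw3_0_8, pw3_0_9]
theorem lw3_0_11_ok : cCT 0 0 3 (.lf lw3_0_11) bw3_0_11 = true := clf (by decide +kernel) (cl1
  pw3_0_8_ok (cl1 pw3_0_9_ok cl0))
def lw3_0_12 : List PT := [pw3_0_10, pw3_0_11]
theorem lw3_0_12_ok : cCT 0 0 3 (.lf lw3_0_12) bw3_0_12 = true := clf (by decide +kernel) (cl1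
  pw3_0_10_ok (cl1 pw3_0_11_ok cl0))
def tw3_0_10 : Tr (List PT) := .s1 (.lf lw3_0_11) (.lf lw3_0_12)
theorem tw3_0_10_ok : cCT 0 0 3 tw3_0_10 bw3_0_10 = true := cs1 (b := bw3_0_10) lw3_0_11_ok
  lw3_0_12_ok
def tw3_0_6 : Tr (List PT) := .s4 (tw3_0_7) (tw3_0_10)
theorem tw3_0_6_ok : cCT 0 0 3 tw3_0_6 bw3_0_6 = true := cs4 (b := bw3_0_6) tw3_0_7_ok tw3_0_10_ok
def lw3_0_13 : List PT := [pw3_0_12, pw3_0_13]
theorem lw3_0_13_ok : cCT 0 0 3 (.lf lw3_0_13) bw3_0_13 = true := clf (by decide +kernel) (cl1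
  pw3_0_12_ok (cl1 pw3_0_13_ok cl0))
def tw3_0_5 : Tr (List PT) := .s2 (tw3_0_6) (.lf lw3_0_13)
theorem tw3_0_5_ok : cCT 0 0 3 tw3_0_5 bw3_0_5 = true := cs2 (b := bw3_0_5) tw3_0_6_ok lw3_0_13_ok
def tw3_0_1 : Tr (List PT) := .s1 (tw3_0_2) (tw3_0_5)
theorem tw3_0_1_ok : cCT 0 0 3 tw3_0_1 bw3_0_1 = true := cs1 (b := bw3_0_1) tw3_0_2_ok tw3_0_5_ok
def lw3_0_16 : List PT := [pw3_0_14, pw3_0_15]
theorem lw3_0_16_ok : cCT 0 0 3 (.lf lw3_0_16) bw3_0_16 = true := clf (by decide +kernel) (cl1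
  pw3_0_14_ok (cl1 pw3_0_15_ok cl0))
def lw3_0_17 : List PT := [pw3_0_16, pw3_0_17]
theorem lw3_0_17_ok : cCT 0 0 3 (.lf lw3_0_17) bw3_0_17 = true := clf (by decide +kernel) (cl1
  pw3_0_16_ok (cl1 pw3_0_17_ok cl0))
def tw3_0_15 : Tr (List PT) := .s2 (.lf lw3_0_16) (.lf lw3_0_17)
theorem tw3_0_15_ok : cCT 0 0 3 tw3_0_15 bw3_0_15 = true := cs2 (b := bw3_0_15) lw3_0_16_ok
  lw3_0_17_ok
def lw3_0_21 : List PT := [pw3_0_18, pw3_0_19]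
theorem lw3_0_21_ok : cCT 0 0 3 (.lf lw3_0_21) bw3_0_21 = true := clf (by decide +kernel) (cl1
  pw3_0_18_ok (cl1 pw3_0_19_ok cl0))
def lw3_0_22 : List PT := [pw3_0_20, pw3_0_21]
theorem lw3_0_22_ok : cCT 0 0 3 (.lf lw3_0_22) bw3_0_22 = true := clf (by decide +kernel) (cl1
  pw3_0_20_ok (cl1 pw3_0_21_ok cl0))
def tw3_0_20 : Tr (List PT) := .s1 (.lf lw3_0_21) (.lf lw3_0_22)
theorem tw3_0_20_ok : cCT 0 0 3 tw3_0_20 bw3_0_20 = true := cs1 (b := bw3_0_20) lw3_0_21_ok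
  lw3_0_22_ok
def lw3_0_23 : List PT := [pw3_0_22, pw3_0_23]
theorem lw3_0_23_ok : cCT 0 0 3 (.lf lw3_0_23) bw3_0_23 = true := clf (by decide +kernel) (cl1
  pw3_0_22_ok (cl1 pw3_0_23_ok cl0))
def tw3_0_19 : Tr (List PT) := .s4 (tw3_0_20) (.lf lw3_0_23)
theorem tw3_0_19_ok : cCT 0 0 3 tw3_0_19 bw3_0_19 = true := cs4 (b := bw3_0_19) tw3_0_20_ok
  lw3_0_23_ok
def lw3_0_24 : List PT := [pw3_0_24, pw3_0_25]
theorem lw3_0_24_ok : cCT 0 0 3 (.lf lw3_0_24) bw3_0_24 = true := clf (by decide +kernel) (cl1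
  pw3_0_24_ok (cl1 pw3_0_25_ok cl0))
def tw3_0_18 : Tr (List PT) := .s2 (tw3_0_19) (.lf lw3_0_24)
theorem tw3_0_18_ok : cCT 0 0 3 tw3_0_18 bw3_0_18 = true := cs2 (b := bw3_0_18) tw3_0_19_ok
  lw3_0_24_ok
def tw3_0_14 : Tr (List PT) := .s1 (tw3_0_15) (tw3_0_18)
theorem tw3_0_14_ok : cCT 0 0 3 tw3_0_14 bw3_0_14 = true := cs1 (b := bw3_0_14) tw3_0_15_ok
  tw3_0_18_ok
def tw3_0_0 : Tr (List PT) := .s4 (tw3_0_1) (tw3_0_14)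
theorem tw3_0_0_ok : cCT 0 0 3 tw3_0_0 bw3_0_0 = true := cs4 (b := bw3_0_0) tw3_0_1_ok tw3_0_14_ok
/-- class (T, T, 3), part 0 -/
theorem w3_0 : cCT 0 0 3 (tw3_0_0) ⟨nat_lit 535397221549391, nat_lit 562949953421312, nat_lit
  535397221549391, nat_lit 562949953421312, nat_lit 281474976710656, nat_lit 281474976710656,
  nat_lit 852869179433288, nat_lit 900719925474099⟩ = true := tw3_0_0_ok

end Pool.Agent.Helper48.CXT.D
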