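import Pool.Agent.Helper48.CXT.KD
import Pool.Agent.Helper48.CXT.D.W4_1
import Pool.Agent.Helper48.CXT.D.W4_2
import Pool.Agent.Helper48.CXT.D.W4_3

/-!
Far cells of tail classes: data.
-/

set_option autoImplicit false
noncomputable section
namespace Pool.Agent.Helper48.CXT.D

open Pool.Agent.Helper48.CXT.KT
open Pool.Agent.Helper48.CXT.KC
open Pool.Agent.Helper94.CXF.KN hiding Sg dnv dnO slT

def lw4_0_3 : List PT := [pw4_0_0]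
theorem lw4_0_3_ok : cCT 0 0 4 (.lf lw4_0_3) bw4_0_3 = true := clf (by decide +kernel) (cl1
  pw4_0_0_ok cl0)
def lw4_0_4 : List PT := [pw4_0_1, pw4_0_2]
theorem lw4_0_4_ok : cCT 0 0 4 (.lf lw4_0_4) bw4_0_4 = true := clf (by decide +kernel) (cl1
  pw4_0_1_ok (cl1 pw4_0_2_ok cl0))
def tw4_0_2 : Tr (List PT) := .s2 (.lf lw4_0_3) (.lf lw4_0_4)
theorem tw4_0_2_ok : cCT 0 0 4 tw4_0_2 bw4_0_2 = true := cs2 (b := bw4_0_2) lw4_0_3_ok lw4_0_4_ok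
def lw4_0_5 : List PT := [pw4_0_3]
theorem lw4_0_5_ok : cCT 0 0 4 (.lf lw4_0_5) bw4_0_5 = true := clf (by decide +kernel) (cl1
  pw4_0_3_ok cl0)
def tw4_0_1 : Tr (List PT) := .s1 (tw4_0_2) (.lf lw4_0_5)
theorem tw4_0_1_ok : cCT 0 0 4 tw4_0_1 bw4_0_1 = true := cs1 (b := bw4_0_1) tw4_0_2_ok lw4_0_5_ok
def lw4_0_7 : List PT := [pw4_0_4, pw4_0_5]
theorem lw4_0_7_ok : cCT 0 0 4 (.lf lw4_0_7) bw4_0_7 = true := clf (by decide +kernel) (cl1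
  pw4_0_4_ok (cl1 pw4_0_5_ok cl0))
def lw4_0_8 : List PT := [pw4_0_6]
theorem lw4_0_8_ok : cCT 0 0 4 (.lf lw4_0_8) bw4_0_8 = true := clf (by decide +kernel) (cl1
  pw4_0_6_ok cl0)
def tw4_0_6 : Tr (List PT) := .s1 (.lf lw4_0_7) (.lf lw4_0_8)
theorem tw4_0_6_ok : cCT 0 0 4 tw4_0_6 bw4_0_6 = true := cs1 (b := bw4_0_6) lw4_0_7_ok lw4_0_8_ok
def tw4_0_0 : Tr (List PT) := .s4 (tw4_0_1) (tw4_0_6)
theorem tw4_0_0_ok : cCT 0 0 4 tw4_0_0 bw4_0_0 = true := cs4 (b := bw4_0_0) tw4_0_1_ok tw4_0_6_ok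
/-- class (T, T, 4), part 0 -/
theorem w4_0 : cCT 0 0 4 (tw4_0_0) ⟨nat_lit 535397221549391, nat_lit 562949953421312, nat_lit
  535397221549391, nat_lit 562949953421312, nat_lit 398065729532861, nat_lit 398065729532861,
  nat_lit 731834939447706, nat_lit 776870935721411⟩ = true := tw4_0_0_ok

end Pool.Agent.Helper48.CXT.D
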