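import Pool.Agent.Helper48.CXT.KD

/-!
Far cells of tail classes: data.
-/

set_option autoImplicit false
noncomputable section
namespace Pool.Agent.Helper48.CXT.D

open Pool.Agent.Helper48.CXT.KT
open Pool.Agent.Helper48.CXT.KC
open Pool.Agent.Helper94.CXF.KN hiding Sg dnv dnO slT

def bw4_0_3 : Bx := ⟨nat_lit 535397221549391, nat_lit 549173587485351, nat_lit 535397221549391,
  nat_lit 549173587485351, nat_lit 398065729532861, nat_lit 398065729532861, nat_lit
  731834939447706, nat_lit 754352937584558⟩
def bw4_0_4 : Bx := ⟨nat_lit 535397221549391, nat_lit 549173587485351, nat_lit 549173587485351,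
  nat_lit 562949953421312, nat_lit 398065729532861, nat_lit 398065729532861, nat_lit
  731834939447706, nat_lit 754352937584558⟩
def bw4_0_2 : Bx := ⟨nat_lit 535397221549391, nat_lit 549173587485351, nat_lit 535397221549391,
  nat_lit 562949953421312, nat_lit 398065729532861, nat_lit 398065729532861, nat_lit
  731834939447706, nat_lit 754352937584558⟩
def bw4_0_5 : Bx := ⟨nat_lit 549173587485351, nat_lit 562949953421312, nat_lit 535397221549391,
  nat_lit 562949953421312, nat_lit 398065729532861, nat_lit 398065729532861, nat_lit
  731834939447706, nat_lit 754352937584558⟩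
def bw4_0_1 : Bx := ⟨nat_lit 535397221549391, nat_lit 562949953421312, nat_lit 535397221549391,
  nat_lit 562949953421312, nat_lit 398065729532861, nat_lit 398065729532861, nat_lit
  731834939447706, nat_lit 754352937584558⟩
def bw4_0_7 : Bx := ⟨nat_lit 535397221549391, nat_lit 549173587485351, nat_lit 535397221549391,
  nat_lit 562949953421312, nat_lit 398065729532861, nat_lit 398065729532861, nat_lit
  754352937584558, nat_lit 776870935721411⟩
def bw4_0_8 : Bx := ⟨nat_lit 549173587485351, nat_lit 562949953421312, nat_lit 535397221549391,
  nat_lit 562949953421312, nat_lit 398065729532861, nat_lit 398065729532861, nat_lit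
  754352937584558, nat_lit 776870935721411⟩
def bw4_0_6 : Bx := ⟨nat_lit 535397221549391, nat_lit 562949953421312, nat_lit 535397221549391,
  nat_lit 562949953421312, nat_lit 398065729532861, nat_lit 398065729532861, nat_lit
  754352937584558, nat_lit 776870935721411⟩
def bw4_0_0 : Bx := ⟨nat_lit 535397221549391, nat_lit 562949953421312, nat_lit 535397221549391,
  nat_lit 562949953421312, nat_lit 398065729532861, nat_lit 398065729532861, nat_lit
  731834939447706, nat_lit 776870935721411⟩

end Pool.Agent.Helper48.CXT.D
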