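import Pool.Agent.Helper48.CXT.KD
import Pool.Agent.Helper48.CXT.D.W6_1
import Pool.Agent.Helper48.CXT.D.W6_2
import Pool.Agent.Helper48.CXT.D.W6_3

/-!
Far cells of tail classes: data.
-/

set_option autoImplicit false
noncomputable section
namespace Pool.Agent.Helper48.CXT.D

open Pool.Agent.Helper48.CXT.KT
open Pool.Agent.Helper48.CXT.KC
open Pool.Agent.Helper94.CXF.KN hiding Sg dnv dnO slT

def lw6_0_2 : List PT := [pw6_0_0]
theorem lw6_0_2_ok : cCT 0 0 6 (.lf lw6_0_2) bw6_0_2 = true := clf (by decide +kernel) (cl1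
  pw6_0_0_ok cl0)
def lw6_0_3 : List PT := [pw6_0_1]
theorem lw6_0_3_ok : cCT 0 0 6 (.lf lw6_0_3) bw6_0_3 = true := clf (by decide +kernel) (cl1
  pw6_0_1_ok cl0)
def tw6_0_1 : Tr (List PT) := .s4 (.lf lw6_0_2) (.lf lw6_0_3)
theorem tw6_0_1_ok : cCT 0 0 6 tw6_0_1 bw6_0_1 = true := cs4 (b := bw6_0_1) lw6_0_2_ok lw6_0_3_ok
def lw6_0_4 : List PT := [pw6_0_2, pw6_0_3]
theorem lw6_0_4_ok : cCT 0 0 6 (.lf lw6_0_4) bw6_0_4 = true := clf (by decide +kernel) (cl1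
  pw6_0_2_ok (cl1 pw6_0_3_ok cl0))
def tw6_0_0 : Tr (List PT) := .s4 (tw6_0_1) (.lf lw6_0_4)
theorem tw6_0_0_ok : cCT 0 0 6 tw6_0_0 bw6_0_0 = true := cs4 (b := bw6_0_0) tw6_0_1_ok lw6_0_4_ok
/-- class (T, T, 6), part 0 -/
theorem w6_0 : cCT 0 0 6 (tw6_0_0) ⟨nat_lit 535397221549391, nat_lit 562949953421312, nat_lit
  535397221549391, nat_lit 562949953421312, nat_lit 487528960722123, nat_lit 487528960722123,
  nat_lit 633318697598976, nat_lit 689613692941107⟩ = true := tw6_0_0_ok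

end Pool.Agent.Helper48.CXT.D
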