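import Pool.Agent.Helper48.CXT.KD

/-!
Far cells of tail classes: data.
-/

set_option autoImplicit false
noncomputable section
namespace Pool.Agent.Helper48.CXT.D

open Pool.Agent.Helper48.CXT.KT
open Pool.Agent.Helper48.CXT.KC
open Pool.Agent.Helper94.CXF.KN hiding Sg dnv dnO slT

def bw6_0_2 : Bx := ⟨nat_lit 535397221549391, nat_lit 562949953421312, nat_lit 535397221549391,
  nat_lit 562949953421312, nat_lit 487528960722123, nat_lit 487528960722123, nat_lit
  633318697598976, nat_lit 647392446434508⟩
def bw6_0_3 : Bx := ⟨nat_lit 535397221549391, nat_lit 562949953421312, nat_lit 535397221549391,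
  nat_lit 562949953421312, nat_lit 487528960722123, nat_lit 487528960722123, nat_lit
  647392446434508, nat_lit 661466195270041⟩
def bw6_0_1 : Bx := ⟨nat_lit 535397221549391, nat_lit 562949953421312, nat_lit 535397221549391,
  nat_lit 562949953421312, nat_lit 487528960722123, nat_lit 487528960722123, nat_lit
  633318697598976, nat_lit 661466195270041⟩
def bw6_0_4 : Bx := ⟨nat_lit 535397221549391, nat_lit 562949953421312, nat_lit 535397221549391,
  nat_lit 562949953421312, nat_lit 487528960722123, nat_lit 487528960722123, nat_lit
  661466195270041, nat_lit 689613692941107⟩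
def bw6_0_0 : Bx := ⟨nat_lit 535397221549391, nat_lit 562949953421312, nat_lit 535397221549391,
  nat_lit 562949953421312, nat_lit 487528960722123, nat_lit 487528960722123, nat_lit
  633318697598976, nat_lit 689613692941107⟩

end Pool.Agent.Helper48.CXT.D
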