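import Pool.Agent.Helper48.CXT.KD
import Pool.Agent.Helper48.CXT.D.W7_1
import Pool.Agent.Helper48.CXT.D.W7_2

/-!
Far cells of tail classes: data.
-/

set_option autoImplicit false
noncomputable section
namespace Pool.Agent.Helper48.CXT.D

open Pool.Agent.Helper48.CXT.KT
open Pool.Agent.Helper48.CXT.KC
open Pool.Agent.Helper94.CXF.KN hiding Sg dnv dnO slT

def lw7_0_1 : List PT := [pw7_0_0]
theorem lw7_0_1_ok : cCT 0 0 7 (.lf lw7_0_1) bw7_0_1 = true := clf (by decide +kernel) (cl1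
  pw7_0_0_ok cl0)
def lw7_0_2 : List PT := [pw7_0_1]
theorem lw7_0_2_ok : cCT 0 0 7 (.lf lw7_0_2) bw7_0_2 = true := clf (by decide +kernel) (cl1
  pw7_0_1_ok cl0)
def tw7_0_0 : Tr (List PT) := .s4 (.lf lw7_0_1) (.lf lw7_0_2)
theorem tw7_0_0_ok : cCT 0 0 7 tw7_0_0 bw7_0_0 = true := cs4 (b := bw7_0_0) lw7_0_1_ok lw7_0_2_ok
/-- class (T, T, 7), part 0 -/
theorem w7_0 : cCT 0 0 7 (tw7_0_0) ⟨nat_lit 535397221549391, nat_lit 562949953421312, nat_lit
  535397221549391, nat_lit 562949953421312, nat_lit 507200382219719, nat_lit 507200382219719,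
  nat_lit 613615449229230, nat_lit 669910444571361⟩ = true := tw7_0_0_ok

end Pool.Agent.Helper48.CXT.D
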