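import Pool.Agent.Helper48.CXT.KD
import Pool.Agent.Helper48.CXT.D.W8_1
import Pool.Agent.Helper48.CXT.D.W8_2
import Pool.Agent.Helper48.CXT.D.W8_3

/-!
Far cells of tail classes: data.
-/

set_option autoImplicit false
noncomputable section
namespace Pool.Agent.Helper48.CXT.D

open Pool.Agent.Helper48.CXT.KT
open Pool.Agent.Helper48.CXT.KC
open Pool.Agent.Helper94.CXF.KN hiding Sg dnv dnO slT

def lw8_0_2 : List PT := [pw8_0_0]
theorem lw8_0_2_ok : cCT 0 0 8 (.lf lw8_0_2) bw8_0_2 = true := clf (by decide +kernel) (cl1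
  pw8_0_0_ok cl0)
def lw8_0_3 : List PT := [pw8_0_1]
theorem lw8_0_3_ok : cCT 0 0 8 (.lf lw8_0_3) bw8_0_3 = true := clf (by decide +kernel) (cl1
  pw8_0_1_ok cl0)
def tw8_0_1 : Tr (List PT) := .s4 (.lf lw8_0_2) (.lf lw8_0_3)
theorem tw8_0_1_ok : cCT 0 0 8 tw8_0_1 bw8_0_1 = true := cs4 (b := bw8_0_1) lw8_0_2_ok lw8_0_3_ok
def lw8_0_4 : List PT := [pw8_0_2, pw8_0_3]
theorem lw8_0_4_ok : cCT 0 0 8 (.lf lw8_0_4) bw8_0_4 = true := clf (by decide +kernel) (cl1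
  pw8_0_2_ok (cl1 pw8_0_3_ok cl0))
def tw8_0_0 : Tr (List PT) := .s4 (tw8_0_1) (.lf lw8_0_4)
theorem tw8_0_0_ok : cCT 0 0 8 tw8_0_0 bw8_0_0 = true := cs4 (b := bw8_0_0) tw8_0_1_ok lw8_0_4_ok
/-- class (T, T, 8), part 0 -/
theorem w8_0 : cCT 0 0 8 (tw8_0_0) ⟨nat_lit 535397221549391, nat_lit 562949953421312, nat_lit
  535397221549391, nat_lit 562949953421312, nat_lit 520097939794132, nat_lit 520097939794132,
  nat_lit 599541700393697, nat_lit 658651445502935⟩ = true := tw8_0_0_ok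

end Pool.Agent.Helper48.CXT.D
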