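import Pool.Agent.Helper48.CXT.KD

/-!
Far cells of tail classes: data.
-/

set_option autoImplicit false
noncomputable section
namespace Pool.Agent.Helper48.CXT.D

open Pool.Agent.Helper48.CXT.KT
open Pool.Agent.Helper48.CXT.KC
open Pool.Agent.Helper94.CXF.KN hiding Sg dnv dnO slT

def bw8_0_2 : Bx := ⟨nat_lit 535397221549391, nat_lit 562949953421312, nat_lit 535397221549391,
  nat_lit 562949953421312, nat_lit 520097939794132, nat_lit 520097939794132, nat_lit
  599541700393697, nat_lit 614319136671006⟩
def bw8_0_3 : Bx := ⟨nat_lit 535397221549391, nat_lit 562949953421312, nat_lit 535397221549391,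
  nat_lit 562949953421312, nat_lit 520097939794132, nat_lit 520097939794132, nat_lit
  614319136671006, nat_lit 629096572948316⟩
def bw8_0_1 : Bx := ⟨nat_lit 535397221549391, nat_lit 562949953421312, nat_lit 535397221549391,
  nat_lit 562949953421312, nat_lit 520097939794132, nat_lit 520097939794132, nat_lit
  599541700393697, nat_lit 629096572948316⟩
def bw8_0_4 : Bx := ⟨nat_lit 535397221549391, nat_lit 562949953421312, nat_lit 535397221549391,
  nat_lit 562949953421312, nat_lit 520097939794132, nat_lit 520097939794132, nat_lit
  629096572948316, nat_lit 658651445502935⟩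
def bw8_0_0 : Bx := ⟨nat_lit 535397221549391, nat_lit 562949953421312, nat_lit 535397221549391,
  nat_lit 562949953421312, nat_lit 520097939794132, nat_lit 520097939794132, nat_lit
  599541700393697, nat_lit 658651445502935⟩

end Pool.Agent.Helper48.CXT.D
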